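import Mathlib
import Pool.Agent.H644R3.JointsRand

/-!
A lower bound for the maximum number `J_n(L)` of `n`-dimensional joints of `L` lines in a simple
matroid: for all `n ≥ 2` and `ε > 0` one has `J_n(L) ≥ L ^ (3 / 2 - ε)` for all large `L`.
-/

set_option autoImplicit false

namespace Pool.Agent.Results.MP_66cbdd_co.LowerBound

open Filter

/-- `M` is simple: it has no loops and no parallel pairs. -/
def IsSimple {α : Type} (M : Matroid α) : Prop := ∀ a ∈ M.E, ∀ b ∈ M.E, M.Indep {a, b}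

/-- A line of `M` is a flat of rank two. -/
def IsLine {α : Type} (M : Matroid α) (l : Set α) : Prop := M.IsFlat l ∧ M.eRk l = 2

/-- `x` is an `n`-dimensional joint of the family `L` of lines: there are `n` lines of the family
through `x` whose union has rank at least `n + 1`. -/
def IsJoint {α : Type} (M : Matroid α) (n : ℕ) (L : Set (Set α)) (x : α) : Prop :=
  x ∈ M.E ∧ ∃ l : Fin n → Set α, (∀ i, l i ∈ L ∧ x ∈ l i) ∧ (n : ℕ∞) + 1 ≤ M.eRk (⋃ i, l i)

/-- The numbers of `n`-dimensional joints of all families of exactly `L` lines in finite simple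
matroids. -/
def jointCounts (n L : ℕ) : Set ℕ :=
  {j | ∃ (α : Type) (M : Matroid α) (S : Finset (Set α)), M.E.Finite ∧ IsSimple M ∧
    (∀ l ∈ S, IsLine M l) ∧ S.card = L ∧ {x | IsJoint M n (S : Set (Set α)) x}.ncard = j}

/-- `J_n(L)`, the maximum number of `n`-dimensional joints of `L` lines in a simple matroid. -/
noncomputable def maxJoints (n L : ℕ) : ℕ := sSup (jointCounts n L)

theorem bdd (n L : ℕ) (hn : 2 ≤ n) : BddAbove (jointCounts n L) := by
  refine ⟨2 ^ 0 * n ^ (0 + 1) * L ^ (3 * 0 + 2), fun j hj => ?_⟩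
  obtain ⟨α, M, S, hE, hM, hS, rfl, rfl⟩ := hj
  have hfin : {x | IsJoint M n (S : Set (Set α)) x}.Finite := hE.subset fun x hx => hx.1
  rw [Set.ncard_eq_toFinset_card _ hfin]
  simpa using H644R3.Joints.main (M := M) hM 0 (by omega) hS
    fun x hx => (hfin.mem_toFinset.1 hx)

/-- a locally sparse hypergraph gives many joints -/
theorem le_maxJoints {n K L : ℕ} (hn : 2 ≤ n) (hK : 1 ≤ K) {H : Finset (Finset (Fin L))}
    (hH : H644R3.JMat.Good n K H) : H.card ≤ maxJoints n L := by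
  classical
  have hE : (H644R3.JMat.mat hH).E.Finite := by
    rw [H644R3.JMat.mat_E]
    exact Finset.finite_toSet _
  let S : Finset (Set (H644R3.JMat.G L)) := Finset.univ.image (H644R3.JMat.line H)
  have hScoe : (S : Set (Set (H644R3.JMat.G L))) = Set.range (H644R3.JMat.line H) := by
    simp [S]
  have hmem : {x | IsJoint (H644R3.JMat.mat hH) n (S : Set (Set (H644R3.JMat.G L))) x}.ncard ∈
      jointCounts n L := by
    refine ⟨H644R3.JMat.G L, H644R3.JMat.mat hH, S, hE, H644R3.JMat.simple hH hn, ?_, ?_, rfl⟩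
    · intro l hl
      obtain ⟨i, -, rfl⟩ := Finset.mem_image.1 hl
      exact ⟨H644R3.JMat.line_flat hH hn hK i, H644R3.JMat.line_rank hH hn hK i⟩
    · rw [Finset.card_image_of_injective _ H644R3.JMat.line_inj, Finset.card_univ,
        Fintype.card_fin]
  refine le_trans ?_ (le_csSup (bdd n L hn) hmem)
  have hfin : {x | IsJoint (H644R3.JMat.mat hH) n (S : Set (Set (H644R3.JMat.G L))) x}.Finite :=
    hE.subset fun x hx => hx.1
  have h1 : (Sum.inl '' (H : Set (Finset (Fin L))) : Set (H644R3.JMat.G L)) ⊆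
      {x | IsJoint (H644R3.JMat.mat hH) n (S : Set (Set (H644R3.JMat.G L))) x} := by
    rintro _ ⟨e, he, rfl⟩
    rw [hScoe]
    exact H644R3.JMat.joint hH hn he
  have h2 := Set.ncard_le_ncard h1 hfin
  rwa [Set.ncard_image_of_injective _ Sum.inl_injective, Set.ncard_coe_finset] at h2

/-- For all `n ≥ 2` and `ε > 0` the maximum number `J_n(L)` of `n`-dimensional joints of `L` lines
in a simple matroid is at least `L ^ (3 / 2 - ε)` for all large `L`. -/
theorem result (n : ℕ) (hn : 2 ≤ n) (ε : ℝ) (hε : 0 < ε) :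
    ∀ᶠ L : ℕ in atTop, (L : ℝ) ^ (3 / 2 - ε) ≤ (maxJoints n L : ℝ) := by
  obtain ⟨δ, hδ0, hδε, hδ4⟩ : ∃ δ : ℝ, 0 < δ ∧ δ < ε ∧ δ ≤ 1 / 4 := by
    refine ⟨min (ε / 2) (1 / 4), by positivity, ?_, min_le_right _ _⟩
    exact (min_le_left _ _).trans_lt (by linarith)
  obtain ⟨m, hm⟩ := exists_nat_ge (3 * n / (4 * δ))
  have hmδ : 3 * (n : ℝ) / 2 ≤ 2 * m * δ := by
    rw [div_le_iff₀ (by positivity)] at hm
    linarith
  set K := n + m with hK
  set c : ℝ := 1 / (2 ^ n * (n.factorial : ℝ)) with hc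
  have hc0 : 0 < c := by positivity
  set A1 : ℝ := ∑ v ∈ Finset.Icc n (2 * K + n), Real.exp (2 ^ v) with hA1
  set A2 : ℝ := ∑ v ∈ Finset.Ioc K (2 * K), Real.exp (2 ^ v) with hA2
  have t1 : Tendsto (fun L : ℕ => (L : ℝ) ^ (ε - δ)) atTop atTop :=
    (tendsto_rpow_atTop (by linarith)).comp tendsto_natCast_atTop_atTop
  have t2 : Tendsto (fun L : ℕ => (L : ℝ) ^ (1 / 2 - δ)) atTop atTop :=
    (tendsto_rpow_atTop (by linarith)).comp tendsto_natCast_atTop_atTop
  have t3 : Tendsto (fun L : ℕ => (L : ℝ) ^ (3 / 2 - δ)) atTop atTop :=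
    (tendsto_rpow_atTop (by linarith)).comp tendsto_natCast_atTop_atTop
  filter_upwards [t1.eventually_ge_atTop (3 / c), t2.eventually_ge_atTop (3 * A1 / c),
    t3.eventually_ge_atTop (3 * A2 / c), eventually_ge_atTop (2 * n)] with L h1 h2 h3 hL
  have hL2 : 2 ≤ L := by omega
  have hL2' : (2 : ℝ) ≤ L := by exact_mod_cast hL2
  have hL0 : (0 : ℝ) < L := by linarith
  have hL1 : (1 : ℝ) ≤ L := by linarith
  set d : ℝ := (L : ℝ) ^ (1 / 2 - δ) with hd
  have hd0 : 0 < d := by positivity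
  have hd1 : 1 ≤ d := Real.one_le_rpow hL1 (by linarith)
  have hdL : d ^ 2 ≤ L := by
    rw [hd, ← Real.rpow_natCast, ← Real.rpow_mul hL0.le]
    calc (L : ℝ) ^ ((1 / 2 - δ) * (2 : ℕ)) ≤ (L : ℝ) ^ (1 : ℝ) :=
          Real.rpow_le_rpow_of_exponent_le hL1 (by push_cast; linarith)
      _ = L := Real.rpow_one _
  -- the main term
  have hchoose : c * (L : ℝ) ^ n ≤ (L.choose n : ℝ) := by
    have h4 := Nat.pow_le_choose (α := ℝ) n L
    have h5 : (L : ℝ) / 2 ≤ ((L + 1 - n : ℕ) : ℝ) := by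
      rw [Nat.cast_sub (by omega)]
      push_cast
      have : (2 * n : ℝ) ≤ L := by exact_mod_cast hL
      linarith
    have h6 : ((L : ℝ) / 2) ^ n ≤ ((L + 1 - n : ℕ) : ℝ) ^ n :=
      pow_le_pow_left₀ (by positivity) h5 n
    calc c * (L : ℝ) ^ n = ((L : ℝ) / 2) ^ n / n.factorial := by
          rw [hc, div_pow]
          field_simp
      _ ≤ ((L + 1 - n : ℕ) : ℝ) ^ n / n.factorial := by gcongr
      _ ≤ _ := by exact_mod_cast h4
  have hmain : c * (d * L) ≤ d / (L : ℝ) ^ (n - 1) * (L.choose n : ℝ) := by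
    calc c * (d * L) = d / (L : ℝ) ^ (n - 1) * (c * (L : ℝ) ^ n) := by
          obtain ⟨k, rfl⟩ := Nat.exists_eq_add_of_le' (show 1 ≤ n by omega)
          rw [Nat.add_sub_cancel, pow_succ]
          field_simp
      _ ≤ _ := by gcongr
  have hdLL : d * L = (L : ℝ) ^ (3 / 2 - δ) := by
    have h4 : (L : ℝ) ^ (1 / 2 - δ) * (L : ℝ) ^ (1 : ℝ) = (L : ℝ) ^ (3 / 2 - δ) := by
      rw [← Real.rpow_add hL0]
      congr 1
      ring
    rwa [Real.rpow_one] at h4
  -- the error terms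
  have herr1 : A1 * d ^ 2 ≤ c / 3 * (d * L) := by
    have h4 : A1 ≤ c / 3 * d := by
      rw [div_le_iff₀ hc0] at h2
      linarith
    have h5 : A1 * d ^ 2 ≤ c / 3 * d * d ^ 2 := mul_le_mul_of_nonneg_right h4 (by positivity)
    have h6 : c / 3 * d * d ^ 2 ≤ c / 3 * d * L := mul_le_mul_of_nonneg_left hdL (by positivity)
    linarith
  have herr2 : (L : ℝ) ^ n * ∑ v ∈ Finset.Ioc K (2 * K), (L : ℝ) ^ v *
      (Real.exp (2 ^ v) / ((L : ℝ) / d) ^ (2 * v - n)) ≤ A2 := by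
    rw [Finset.mul_sum, hA2]
    refine Finset.sum_le_sum fun v hv => ?_
    rw [Finset.mem_Ioc] at hv
    have h4 : (L : ℝ) ^ n * (L : ℝ) ^ v ≤ ((L : ℝ) / d) ^ (2 * v - n) := by
      have h5 : (L : ℝ) / d = (L : ℝ) ^ (1 / 2 + δ) := by
        have h6 : (L : ℝ) ^ (1 : ℝ) / (L : ℝ) ^ (1 / 2 - δ) = (L : ℝ) ^ (1 / 2 + δ) := by
          rw [← Real.rpow_sub hL0]
          congr 1
          ring
        rwa [Real.rpow_one] at h6
      rw [h5, ← Real.rpow_natCast _ (2 * v - n), ← Real.rpow_mul hL0.le, ← pow_add,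
        ← Real.rpow_natCast]
      refine Real.rpow_le_rpow_of_exponent_le hL1 ?_
      rw [Nat.cast_sub (by omega)]
      push_cast
      have h6 : ((n : ℝ) + m + 1) ≤ v := by
        have : n + m + 1 ≤ v := by omega
        exact_mod_cast this
      have h7 : 2 * (m : ℝ) * δ ≤ (2 * (v : ℝ) - n) * δ := by
        refine mul_le_mul_of_nonneg_right ?_ hδ0.le
        have : (0 : ℝ) ≤ n := Nat.cast_nonneg _
        linarith
      linarith
    have h8 : (0 : ℝ) < ((L : ℝ) / d) ^ (2 * v - n) := by positivity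
    calc (L : ℝ) ^ n * ((L : ℝ) ^ v * (Real.exp (2 ^ v) / ((L : ℝ) / d) ^ (2 * v - n)))
        = ((L : ℝ) ^ n * (L : ℝ) ^ v) * (Real.exp (2 ^ v) / ((L : ℝ) / d) ^ (2 * v - n)) := by
          ring
      _ ≤ ((L : ℝ) / d) ^ (2 * v - n) * (Real.exp (2 ^ v) / ((L : ℝ) / d) ^ (2 * v - n)) := by
          gcongr
      _ = Real.exp (2 ^ v) := by field_simp
  have herr3 : A2 ≤ c / 3 * (d * L) := by
    rw [div_le_iff₀ hc0, ← hdLL] at h3
    linarith
  have hgoal : (L : ℝ) ^ (3 / 2 - ε) ≤ c / 3 * (d * L) := by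
    have h4 : (L : ℝ) ^ (3 / 2 - δ) = (L : ℝ) ^ (3 / 2 - ε) * (L : ℝ) ^ (ε - δ) := by
      rw [← Real.rpow_add hL0]
      congr 1
      ring
    rw [div_le_iff₀ hc0] at h1
    rw [hdLL, h4]
    have h5 : (0 : ℝ) < (L : ℝ) ^ (3 / 2 - ε) := by positivity
    nlinarith
  obtain ⟨H, hH, hcard⟩ := H644R3.JRand.exists_good (n := n) (K := K) hn (by omega) hL2 hd1 hdL
    (R := (L : ℝ) ^ (3 / 2 - ε)) (by positivity) (by linarith)
  refine hcard.trans ?_
  exact_mod_cast le_maxJoints hn (by omega) hH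

end Pool.Agent.Results.MP_66cbdd_co.LowerBound
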