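import Mathlib
import Pool.Agent.H644R3.Joints

/-!
An upper bound for the maximum number `J_n(L)` of `n`-dimensional joints of `L` lines in a simple
matroid.  For `n ≥ 2 k + 2` one has `J_n(L) ^ (2 k + 1) ≤ 2 ^ k n ^ (k + 1) L ^ (3 k + 2)`, that is
`J_n(L) = O_n(L ^ (3 / 2 + 1 / (4 k + 2)))`.  In particular `J_n(L) = O_n(L ^ (5 / 3))` for all
`n ≥ 4`.
-/

set_option autoImplicit false

namespace Pool.Agent.Results.MP_66cbdd_co.UpperBound

open Filter

/-- `M` is simple: it has no loops and no parallel pairs. -/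
def IsSimple {α : Type} (M : Matroid α) : Prop := ∀ a ∈ M.E, ∀ b ∈ M.E, M.Indep {a, b}

/-- A line of `M` is a flat of rank two. -/
def IsLine {α : Type} (M : Matroid α) (l : Set α) : Prop := M.IsFlat l ∧ M.eRk l = 2

/-- `x` is an `n`-dimensional joint of the family `L` of lines: there are `n` lines of the family
through `x` whose union has rank at least `n + 1`. -/
def IsJoint {α : Type} (M : Matroid α) (n : ℕ) (L : Set (Set α)) (x : α) : Prop :=
  x ∈ M.E ∧ ∃ l : Fin n → Set α, (∀ i, l i ∈ L ∧ x ∈ l i) ∧ (n : ℕ∞) + 1 ≤ M.eRk (⋃ i, l i)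

/-- The numbers of `n`-dimensional joints of all families of exactly `L` lines in finite simple
matroids. -/
def jointCounts (n L : ℕ) : Set ℕ :=
  {j | ∃ (α : Type) (M : Matroid α) (S : Finset (Set α)), M.E.Finite ∧ IsSimple M ∧
    (∀ l ∈ S, IsLine M l) ∧ S.card = L ∧ {x | IsJoint M n (S : Set (Set α)) x}.ncard = j}

/-- `J_n(L)`, the maximum number of `n`-dimensional joints of `L` lines in a simple matroid. -/
noncomputable def maxJoints (n L : ℕ) : ℕ := sSup (jointCounts n L)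

theorem bound (k n L : ℕ) (hkn : 2 * k + 2 ≤ n) {j : ℕ} (hj : j ∈ jointCounts n L) :
    j ^ (2 * k + 1) ≤ 2 ^ k * n ^ (k + 1) * L ^ (3 * k + 2) := by
  obtain ⟨α, M, S, hE, hM, hS, rfl, rfl⟩ := hj
  have hfin : {x | IsJoint M n (S : Set (Set α)) x}.Finite := hE.subset fun x hx => hx.1
  rw [Set.ncard_eq_toFinset_card _ hfin]
  exact H644R3.Joints.main (M := M) hM k hkn hS fun x hx => (hfin.mem_toFinset.1 hx)

theorem bdd (n L : ℕ) (hn : 2 ≤ n) : BddAbove (jointCounts n L) := by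
  refine ⟨2 ^ 0 * n ^ (0 + 1) * L ^ (3 * 0 + 2), fun j hj => ?_⟩
  have := bound 0 n L (by omega) hj
  simpa using this

theorem nonempty_of (n L : ℕ) (h : maxJoints n L ≠ 0) : (jointCounts n L).Nonempty := by
  by_contra hcon
  rw [Set.not_nonempty_iff_eq_empty] at hcon
  apply h
  rw [maxJoints, hcon]
  exact csSup_empty

theorem mainBound (k n L : ℕ) (hkn : 2 * k + 2 ≤ n) :
    maxJoints n L ^ (2 * k + 1) ≤ 2 ^ k * n ^ (k + 1) * L ^ (3 * k + 2) := by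
  by_cases h : maxJoints n L = 0
  · rw [h]
    simp
  · exact bound k n L hkn (Nat.sSup_mem (nonempty_of n L h) (bdd n L (by omega)))

/-- (1) The maximum `J_n(L)` exists for `n ≥ 2`. (2) If `n ≥ 2 k + 2` then
`J_n(L) ^ (2 k + 1) ≤ 2 ^ k n ^ (k + 1) L ^ (3 k + 2)`. (3) If `n ≥ 4` and `ε < 1 / 3` then
`J_n(L) < L ^ (2 - ε)` for all large `L`. -/
theorem result :
    (∀ n L : ℕ, 2 ≤ n → BddAbove (jointCounts n L)) ∧
    (∀ k n L : ℕ, 2 * k + 2 ≤ n →
      maxJoints n L ^ (2 * k + 1) ≤ 2 ^ k * n ^ (k + 1) * L ^ (3 * k + 2)) ∧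
    (∀ n : ℕ, 4 ≤ n → ∀ ε : ℝ, ε < 1 / 3 →
      ∀ᶠ L : ℕ in atTop, (maxJoints n L : ℝ) < (L : ℝ) ^ (2 - ε)) := by
  refine ⟨fun n L hn => bdd n L hn, fun k n L hkn => mainBound k n L hkn, ?_⟩
  intro n hn ε hε
  have h1 : Tendsto (fun L : ℕ => (L : ℝ) ^ (1 - 3 * ε)) atTop atTop :=
    (tendsto_rpow_atTop (by linarith)).comp tendsto_natCast_atTop_atTop
  filter_upwards [h1.eventually_gt_atTop (2 * (n : ℝ) ^ 2), eventually_ge_atTop 1] with L hL hL1
  have hL0 : (0 : ℝ) < L := by exact_mod_cast hL1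
  have h2 := mainBound 1 n L (by omega)
  have h3 : (maxJoints n L : ℝ) ^ 3 ≤ 2 * (n : ℝ) ^ 2 * (L : ℝ) ^ 5 := by
    have : maxJoints n L ^ 3 ≤ 2 * n ^ 2 * L ^ 5 := by simpa using h2
    exact_mod_cast this
  have h4 : 2 * (n : ℝ) ^ 2 * (L : ℝ) ^ 5 < (L : ℝ) ^ (1 - 3 * ε) * (L : ℝ) ^ 5 :=
    mul_lt_mul_of_pos_right hL (by positivity)
  have h5 : (L : ℝ) ^ (1 - 3 * ε) * (L : ℝ) ^ 5 = ((L : ℝ) ^ (2 - ε)) ^ 3 := by
    rw [← Real.rpow_natCast (L : ℝ) 5, ← Real.rpow_natCast ((L : ℝ) ^ (2 - ε)) 3,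
      ← Real.rpow_mul hL0.le, ← Real.rpow_add hL0]
    congr 1
    push_cast
    ring
  rw [h5] at h4
  exact lt_of_pow_lt_pow_left₀ 3 (by positivity) (h3.trans_lt h4)

end Pool.Agent.Results.MP_66cbdd_co.UpperBound
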